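import Pool.Agent.Zk27.MB.Dyn

/-! Points do not approach the origin faster than the exponential of the integrated rate -/

open MeasureTheory Set
open scoped ContDiff

namespace Pool.Agent.Zk27.MB

open Pool.Agent.H708R2.EulerSign

variable {s : Finset ℕ} {X : ℕ → ℝ × ℝ → ℝ × ℝ} {φ : ℕ → ℝ × ℝ → ℝ} {w₀ : ℝ × ℝ → ℝ}
  {Z Y : ℝ → ℝ × ℝ → ℝ × ℝ}

theorem IsFlow.expBound2 (h : IsFlow s X φ w₀ Z Y) {g : ℝ → ℝ} {t : ℝ} (ht : 0 ≤ t)
    (hg : IntegrableOn g (Icc 0 t)) (hg0 : ∀ r ∈ Icc 0 t, 0 ≤ g r)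
    (hL : ∀ r ∈ Icc 0 t, ∀ z, ‖vel s X φ w₀ Y r z‖ ≤ g r * ‖z‖) (p : ℝ × ℝ) :
    ‖p‖ ≤ 2 * ‖Z t p‖ * Real.exp (2 * ∫ r in Icc 0 t, g r) := by
  by_cases hp : p = 0
  · rw [hp, norm_zero]
    positivity
  -- the origin is fixed
  have hY0 : ∀ r ∈ Icc (0 : ℝ) t, Y r 0 = 0 := by
    intro r hr
    have h1 : ∀ u ∈ Icc (0 : ℝ) t, HasDerivAt (fun u => Y u 0) 0 u := by
      intro u hu
      have h2 := h.hasDerivAt_Y u 0
      have h3 : vel s X φ w₀ Y u 0 = 0 := by
        have h4 := hL u hu 0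
        rw [norm_zero, mul_zero] at h4
        exact norm_le_zero_iff.1 h4
      rw [h3, map_zero, neg_zero] at h2
      exact h2
    have h5 := constant_of_derivWithin_zero (f := fun u => Y u (0 : ℝ × ℝ)) (a := 0) (b := t)
      (fun u hu => (h1 u hu).differentiableAt.differentiableWithinAt)
      (fun u hu => by
        have hu' : u ∈ Icc (0 : ℝ) t := ⟨hu.1, hu.2.le⟩
        have ht0 : (0 : ℝ) < t := lt_of_le_of_lt hu.1 hu.2
        exact (h1 u hu').hasDerivWithinAt.derivWithin (uniqueDiffOn_Icc ht0 u hu')) r hr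
    rw [h5, h.zero']
  have hZ0 : ∀ r ∈ Icc (0 : ℝ) t, Z r p ≠ 0 := by
    intro r hr h0
    apply hp
    rw [← h.right r p, h0, hY0 r hr]
  -- the energy
  set E : ℝ → ℝ := fun r => (Z r p).1 ^ 2 + (Z r p).2 ^ 2 with hE
  have hZs : ContDiff ℝ ∞ fun r => Z r p := h.smoothZ.comp (contDiff_id.prodMk contDiff_const)
  have hEs : ContDiff ℝ ∞ E := (hZs.fst.pow 2).add (hZs.snd.pow 2)
  have hE1 : ContDiff ℝ 1 E := hEs.of_le (by exact_mod_cast le_top)
  have hEc : Continuous (deriv E) := hE1.continuous_deriv le_rfl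
  have hEd : ∀ r, HasDerivAt E (deriv E r) r := fun r =>
    (hE1.differentiable (by simp) r).hasDerivAt
  have hnE : ∀ r, ‖Z r p‖ ^ 2 ≤ E r ∧ E r ≤ 2 * ‖Z r p‖ ^ 2 := by
    intro r
    rw [hE, Prod.norm_def, Real.norm_eq_abs, Real.norm_eq_abs]
    simp only
    have a1 := sq_abs (Z r p).1
    have a2 := sq_abs (Z r p).2
    have b1 := abs_nonneg (Z r p).1
    have b2 := abs_nonneg (Z r p).2
    rw [← a1, ← a2]
    generalize |(Z r p).1| = x at *
    generalize |(Z r p).2| = y at *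
    rcases le_total x y with hxy | hxy
    · rw [max_eq_right hxy]
      constructor
      · nlinarith
      · nlinarith [pow_le_pow_left₀ b1 hxy 2]
    · rw [max_eq_left hxy]
      constructor
      · nlinarith
      · nlinarith [pow_le_pow_left₀ b2 hxy 2]
  have hEp : ∀ r ∈ Icc (0 : ℝ) t, 0 < E r := by
    intro r hr
    have h1 := norm_pos_iff.2 (hZ0 r hr)
    have h2 := (hnE r).1
    have : 0 < ‖Z r p‖ ^ 2 := by positivity
    linarith
  -- the derivative of the energy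
  have hEb : ∀ r ∈ Icc (0 : ℝ) t, |deriv E r| ≤ 4 * g r * E r := by
    intro r hr
    have h1 := h.hasDerivAt_Z r p
    have h2 : HasDerivAt E (2 * (Z r p).1 * (vel s X φ w₀ Y r (Z r p)).1 +
        2 * (Z r p).2 * (vel s X φ w₀ Y r (Z r p)).2) r := by
      have f1 : HasDerivAt (fun r => (Z r p).1) (vel s X φ w₀ Y r (Z r p)).1 r := h1.fst
      have f2 : HasDerivAt (fun r => (Z r p).2) (vel s X φ w₀ Y r (Z r p)).2 r := h1.snd
      have h3 := (f1.pow 2).add (f2.pow 2)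
      refine h3.congr_deriv ?_
      push_cast
      ring
    rw [h2.deriv]
    have h4 := hL r hr (Z r p)
    have g0 := hg0 r hr
    have h5 : |(vel s X φ w₀ Y r (Z r p)).1| ≤ g r * ‖Z r p‖ := (norm_fst_le _).trans h4
    have h6 : |(vel s X φ w₀ Y r (Z r p)).2| ≤ g r * ‖Z r p‖ := (norm_snd_le _).trans h4
    have h7 : |(Z r p).1| ≤ ‖Z r p‖ := norm_fst_le (Z r p)
    have h8 : |(Z r p).2| ≤ ‖Z r p‖ := norm_snd_le (Z r p)
    have h9 := (hnE r).1
    calc |2 * (Z r p).1 * (vel s X φ w₀ Y r (Z r p)).1 +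
          2 * (Z r p).2 * (vel s X φ w₀ Y r (Z r p)).2| ≤
          2 * |(Z r p).1| * |(vel s X φ w₀ Y r (Z r p)).1| +
          2 * |(Z r p).2| * |(vel s X φ w₀ Y r (Z r p)).2| := by
          refine (abs_add_le _ _).trans (le_of_eq ?_)
          rw [abs_mul, abs_mul, abs_mul, abs_mul, abs_two]
      _ ≤ 2 * ‖Z r p‖ * (g r * ‖Z r p‖) + 2 * ‖Z r p‖ * (g r * ‖Z r p‖) := by gcongr
      _ = 4 * g r * ‖Z r p‖ ^ 2 := by ring
      _ ≤ 4 * g r * E r := by gcongr
  -- the logarithm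
  have hlog : ∀ r ∈ uIcc (0 : ℝ) t, HasDerivAt (fun r => Real.log (E r)) (deriv E r / E r) r := by
    intro r hr
    rw [uIcc_of_le ht] at hr
    exact (hEd r).log (hEp r hr).ne'
  have hcont : ContinuousOn (fun r => deriv E r / E r) (uIcc 0 t) := by
    rw [uIcc_of_le ht]
    exact hEc.continuousOn.div hE1.continuous.continuousOn fun r hr => (hEp r hr).ne'
  have hftc := intervalIntegral.integral_eq_sub_of_hasDerivAt hlog hcont.intervalIntegrable
  have hgi : IntervalIntegrable g volume 0 t :=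
    (intervalIntegrable_iff_integrableOn_Icc_of_le ht).2 hg
  have hmono : ∫ r in (0 : ℝ)..t, -(4 * g r) ≤ ∫ r in (0 : ℝ)..t, deriv E r / E r := by
    refine intervalIntegral.integral_mono_on ht (hgi.const_mul 4).neg hcont.intervalIntegrable
      fun r hr => ?_
    rw [le_div_iff₀ (hEp r hr)]
    have := (abs_le.1 (hEb r hr)).1
    linarith
  rw [hftc, intervalIntegral.integral_neg, intervalIntegral.integral_const_mul] at hmono
  have hI : ∫ r in (0 : ℝ)..t, g r = ∫ r in Icc 0 t, g r := by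
    rw [intervalIntegral.integral_of_le ht, integral_Icc_eq_integral_Ioc]
  rw [hI] at hmono
  set A := ∫ r in Icc 0 t, g r with hA
  have hE0 : Real.log (E 0) ≤ Real.log (E t * Real.exp (4 * A)) := by
    rw [Real.log_mul (hEp t ⟨ht, le_rfl⟩).ne' (Real.exp_pos _).ne', Real.log_exp]
    linarith
  have hE0' : E 0 ≤ E t * Real.exp (4 * A) :=
    (Real.log_le_log_iff (hEp 0 ⟨le_rfl, ht⟩) (by
      have := hEp t ⟨ht, le_rfl⟩
      positivity)).1 hE0
  have h1 := (hnE 0).1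
  rw [h.zero] at h1
  have h2 := (hnE t).2
  have h3 : ‖p‖ ^ 2 ≤ (2 * ‖Z t p‖ * Real.exp (2 * A)) ^ 2 := by
    have e1 : (2 * ‖Z t p‖ * Real.exp (2 * A)) ^ 2 = 4 * ‖Z t p‖ ^ 2 * Real.exp (4 * A) := by
      have e2 : Real.exp (4 * A) = Real.exp (2 * A) * Real.exp (2 * A) := by
        rw [← Real.exp_add]; congr 1; ring
      rw [e2]; ring
    rw [e1]
    have h4 := mul_le_mul_of_nonneg_right h2 (Real.exp_pos (4 * A)).le
    have h5 : 0 ≤ ‖Z t p‖ ^ 2 * Real.exp (4 * A) := by positivity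
    linarith
  exact le_of_sq_le_sq h3 (by positivity)

end Pool.Agent.Zk27.MB
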